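import Mathlib
import Pool.Agent.P.MP_977360_an.Final

/-!
The operator norm of `y ↦ -y'' + lam * y` on the Bernstein space `B_σ`, for every complex `lam`.
-/

open scoped BoundedContinuousFunction Real

namespace Pool.Agent.Results.MP_977360_an.ExactNorm

open Pool.Agent.P.MP_977360_an

/-- `F` is an entire function of exponential type at most `σ`. -/
def IsEntireOfExpType (σ : ℝ) (F : ℂ → ℂ) : Prop :=
  Differentiable ℂ F ∧
    ∀ ε : ℝ, 0 < ε → ∃ C : ℝ, ∀ z : ℂ, ‖F z‖ ≤ C * Real.exp ((σ + ε) * ‖z‖)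

/-- The Bernstein space `B_σ`: the bounded (continuous) functions `ℝ → ℂ` that are restrictions to
`ℝ` of entire functions of exponential type at most `σ`, with the uniform norm of `ℝ →ᵇ ℂ`. -/
def Bernstein (σ : ℝ) : Submodule ℂ (ℝ →ᵇ ℂ) where
  carrier := {f | ∃ F : ℂ → ℂ, IsEntireOfExpType σ F ∧ ∀ x : ℝ, f x = F x}
  zero_mem' := ⟨fun _ => 0, ⟨differentiable_const _, fun _ _ => ⟨0, fun _ => by simp⟩⟩,
    fun _ => rfl⟩
  add_mem' := by
    rintro f g ⟨F, hF, hf⟩ ⟨G, hG, hg⟩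
    refine ⟨fun z => F z + G z, ⟨hF.1.add hG.1, fun ε hε => ?_⟩, fun x => by simp [hf, hg]⟩
    obtain ⟨C, hC⟩ := hF.2 ε hε
    obtain ⟨D, hD⟩ := hG.2 ε hε
    exact ⟨C + D, fun z => (norm_add_le _ _).trans
      ((add_le_add (hC z) (hD z)).trans_eq (add_mul _ _ _).symm)⟩
  smul_mem' := by
    rintro c f ⟨F, hF, hf⟩
    refine ⟨fun z => c * F z, ⟨hF.1.const_mul c, fun ε hε => ?_⟩, fun x => by simp [hf]⟩
    obtain ⟨C, hC⟩ := hF.2 ε hε
    refine ⟨‖c‖ * C, fun z => ?_⟩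
    rw [norm_mul, mul_assoc]
    exact mul_le_mul_of_nonneg_left (hC z) (norm_nonneg _)

lemma pointwise_le {σ : ℝ} (hσ : 0 < σ) (lam : ℂ) {a : ℝ} (ha0 : 0 ≤ a) (ha : a < π)
    (f : Bernstein σ) (x : ℝ) :
    ‖-iteratedDeriv 2 (f : ℝ →ᵇ ℂ) x + lam * (f : ℝ →ᵇ ℂ) x‖ ≤
      (‖lam + (σ : ℂ) ^ 2 * Aq a‖ + σ ^ 2 * (Bq a).re) * ‖f‖ := by
  obtain ⟨F, hF, hf⟩ := f.2
  rw [iteratedDeriv_two_ofReal hF.1 hf, hf]
  exact upper_sigma hF.1 hσ hF.2 (fun y => hf y ▸ (f : ℝ →ᵇ ℂ).norm_coe_le_norm y) ha0 ha lam x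

lemma exists_image {σ : ℝ} (hσ : 0 < σ) (lam : ℂ) (f : Bernstein σ) :
    ∃ g : Bernstein σ, ∀ x : ℝ,
      (g : ℝ →ᵇ ℂ) x = -iteratedDeriv 2 (f : ℝ →ᵇ ℂ) x + lam * (f : ℝ →ᵇ ℂ) x := by
  obtain ⟨F, hF, hf⟩ := f.2
  have hd : Differentiable ℂ fun z => -deriv (deriv F) z + lam * F z :=
    hF.1.deriv.deriv.neg.add (hF.1.const_mul _)
  have he : ∀ x : ℝ, -iteratedDeriv 2 (f : ℝ →ᵇ ℂ) x + lam * (f : ℝ →ᵇ ℂ) x =
      -deriv (deriv F) x + lam * F x := fun x => by rw [iteratedDeriv_two_ofReal hF.1 hf, hf]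
  refine ⟨⟨BoundedContinuousFunction.ofNormedAddCommGroup
    (fun x : ℝ => -deriv (deriv F) x + lam * F x) (hd.continuous.comp Complex.continuous_ofReal) _
    (fun x => he x ▸ pointwise_le hσ lam le_rfl Real.pi_pos f x),
    _, ⟨hd, op_type hF.1 hσ.le hF.2 lam⟩, fun _ => rfl⟩, fun x => (he x).symm⟩

lemma exists_operator {σ : ℝ} (hσ : 0 < σ) (lam : ℂ) :
    ∃ T : Bernstein σ →L[ℂ] Bernstein σ, ∀ (f : Bernstein σ) (x : ℝ),
      (T f : ℝ →ᵇ ℂ) x = -iteratedDeriv 2 (f : ℝ →ᵇ ℂ) x + lam * (f : ℝ →ᵇ ℂ) x := by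
  choose g hg using exists_image hσ lam
  let L : Bernstein σ →ₗ[ℂ] Bernstein σ :=
    { toFun := g
      map_add' := fun f₁ f₂ => by
        ext x
        obtain ⟨F, hF, hf⟩ := f₁.2
        obtain ⟨G, hG, hf'⟩ := f₂.2
        have h : ∀ y : ℝ, ((f₁ + f₂ : Bernstein σ) : ℝ →ᵇ ℂ) y = (F + G) y := fun y => by
          simp [hf, hf']
        have e : deriv (F + G) = deriv F + deriv G := funext fun z => deriv_add (hF.1 z) (hG.1 z)
        rw [Submodule.coe_add, BoundedContinuousFunction.add_apply, hg, hg, hg,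
          iteratedDeriv_two_ofReal (hF.1.add hG.1) h, iteratedDeriv_two_ofReal hF.1 hf,
          iteratedDeriv_two_ofReal hG.1 hf', h, hf, hf', e,
          deriv_add (hF.1.deriv _) (hG.1.deriv _), Pi.add_apply]
        ring
      map_smul' := fun c f => by
        ext x
        obtain ⟨F, hF, hf⟩ := f.2
        have h : ∀ y : ℝ, ((c • f : Bernstein σ) : ℝ →ᵇ ℂ) y = (fun z => c * F z) y := fun y => by
          simp [hf]
        have e : deriv (fun z => c * F z) = fun z => c * deriv F z :=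
          funext fun z => deriv_const_mul c (hF.1 z)
        rw [RingHom.id_apply, Submodule.coe_smul, BoundedContinuousFunction.smul_apply, hg, hg,
          iteratedDeriv_two_ofReal (hF.1.const_mul c) h, iteratedDeriv_two_ofReal hF.1 hf,
          h, hf, e, deriv_const_mul c (hF.1.deriv _), smul_eq_mul]
        ring }
  refine ⟨L.mkContinuousOfExistsBound ⟨|‖lam + (σ : ℂ) ^ 2 * Aq 0‖ + σ ^ 2 * (Bq 0).re|,
    fun f => ?_⟩, fun f x => hg f x⟩
  refine (BoundedContinuousFunction.norm_le (by positivity)).mpr fun x => ?_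
  refine (hg f x ▸ pointwise_le hσ lam le_rfl Real.pi_pos f x).trans ?_
  exact mul_le_mul_of_nonneg_right (le_abs_self _) (norm_nonneg _)

lemma norm_eq {σ : ℝ} (hσ : 0 < σ) (lam : ℂ) (T : Bernstein σ →L[ℂ] Bernstein σ)
    (hT : ∀ (f : Bernstein σ) (x : ℝ),
      (T f : ℝ →ᵇ ℂ) x = -iteratedDeriv 2 (f : ℝ →ᵇ ℂ) x + lam * (f : ℝ →ᵇ ℂ) x)
    {a β N : ℝ} (ha0 : 0 ≤ a) (ha : a < π) (hβ : β ^ 2 ≤ a ^ 2)
    (h1 : ‖lam + (σ : ℂ) ^ 2 * Aq a‖ + σ ^ 2 * (Bq a).re = N)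
    (h2 : (-deriv (deriv (Extr σ a β)) 0 + lam * Extr σ a β 0).re = N) : ‖T‖ = N := by
  let E : Bernstein σ := ⟨BoundedContinuousFunction.ofNormedAddCommGroup
    (fun x : ℝ => Extr σ a β x) ((Extr_diff σ a β).continuous.comp Complex.continuous_ofReal) 1
    (Extr_bound σ hβ), Extr σ a β, ⟨Extr_diff σ a β, Extr_type hσ.le ha0 β⟩, fun _ => rfl⟩
  have hE : ∀ x : ℝ, (E : ℝ →ᵇ ℂ) x = Extr σ a β x := fun _ => rfl
  have hE1 : ‖E‖ ≤ 1 := (BoundedContinuousFunction.norm_le zero_le_one).mpr (Extr_bound σ hβ)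
  have hlow : N ≤ ‖T E‖ := by
    refine le_trans ?_ ((T E : ℝ →ᵇ ℂ).norm_coe_le_norm 0)
    rw [hT, iteratedDeriv_two_ofReal (Extr_diff σ a β) hE, hE, ← h2, Complex.ofReal_zero]
    exact Complex.re_le_norm _
  have hN : 0 ≤ N := by
    have h3 := upper_one (F := fun _ => 0) (M := 1) (differentiable_const _)
      (fun z => by simpa using (Real.exp_pos _).le) ha0 ha
    have h4 : 0 ≤ (Bq a).re := by simpa using (norm_nonneg _).trans h3
    rw [← h1]; positivity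
  refine le_antisymm (T.opNorm_le_bound hN fun f => ?_) ?_
  · refine (BoundedContinuousFunction.norm_le (by positivity)).mpr fun x => ?_
    exact hT f x ▸ h1 ▸ pointwise_le hσ lam ha0 ha f x
  · exact hlow.trans ((T.le_opNorm E).trans (mul_le_of_le_one_right (norm_nonneg _) hE1))

/-- The norm of `T y = -y'' + lam y` on `B_σ`. For real `lam ≥ -σ²/3` it is `σ² + lam`. For every
other complex `lam` the equation `Re lam + σ² (1 - a cot a) / a² = |Im lam| cot a` has exactly one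
root `a` in `(0, π)`, and the norm is `|Im lam| / sin a + σ² (a - sin a cos a) / (a² sin a)`. -/
theorem result (σ : ℝ) (hσ : 0 < σ) (lam : ℂ) :
    ∃ T : Bernstein σ →L[ℂ] Bernstein σ,
      (∀ (f : Bernstein σ) (x : ℝ),
        (T f : ℝ →ᵇ ℂ) x = -iteratedDeriv 2 (f : ℝ →ᵇ ℂ) x + lam * (f : ℝ →ᵇ ℂ) x) ∧
      (lam.im = 0 ∧ -σ ^ 2 / 3 ≤ lam.re → ‖T‖ = σ ^ 2 + lam.re) ∧
      (¬(lam.im = 0 ∧ -σ ^ 2 / 3 ≤ lam.re) →
        (∃! a : ℝ, a ∈ Set.Ioo 0 π ∧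
          lam.re + σ ^ 2 * ((1 - a * Real.cot a) / a ^ 2) = |lam.im| * Real.cot a) ∧
        ∀ a ∈ Set.Ioo 0 π,
          lam.re + σ ^ 2 * ((1 - a * Real.cot a) / a ^ 2) = |lam.im| * Real.cot a →
          ‖T‖ = |lam.im| / Real.sin a +
            σ ^ 2 * ((a - Real.sin a * Real.cos a) / (a ^ 2 * Real.sin a))) := by
  obtain ⟨T, hT⟩ := exists_operator hσ lam
  refine ⟨T, hT, fun h => ?_, fun h => ⟨?_, fun a ha hroot => ?_⟩⟩
  · obtain ⟨h1, h2⟩ := zero_values h.1 h.2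
    exact norm_eq hσ lam T hT le_rfl Real.pi_pos le_rfl h1 h2
  · exact root_existsUnique σ hσ lam.re |lam.im| (abs_nonneg _) (by rwa [abs_eq_zero])
  · obtain ⟨h1, β, hβ, h2⟩ := root_values ha hroot
    exact norm_eq hσ lam T hT ha.1.le ha.2 hβ h1 h2

end Pool.Agent.Results.MP_977360_an.ExactNorm
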